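import Pool.Agent.Q27.Gersten.Grp

/-! The action of the group on its tree. -/

namespace Q27.Gersten

open FreeGroup (of lift)
open Q27.FreeFacts

/-- the orientation character -/
noncomputable def chi : F →* Multiplicative ℤ :=
  lift ![1, Multiplicative.ofAdd 1, Multiplicative.ofAdd 1]

theorem chi_a : chi a = 1 := by simp [chi, a]

theorem chi_b : chi b = Multiplicative.ofAdd 1 := by simp [chi, b]

theorem chi_c : chi c = Multiplicative.ofAdd 1 := by simp [chi, c]

theorem chi_Th (n : ℤ) (f : F) : chi (Th n f) = chi f := by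
  have : chi.comp (Th n) = chi := by
    ext i
    fin_cases i
    · change chi (Th n a) = chi a
      rw [Th_a]
    · change chi (Th n b) = chi b
      rw [Th_b, map_mul, map_zpow, chi_a, one_zpow, mul_one]
    · change chi (Th n c) = chi c
      rw [Th_c, map_mul, map_zpow, chi_a, one_zpow, mul_one]
  exact DFunLike.congr_fun this f

theorem chi_pi (f f' : F) (h : pi f = pi f') : chi f = chi f' := by
  rw [pi_eq] at h
  obtain ⟨k, rfl⟩ := h
  rw [map_mul, map_zpow, chi_a, one_zpow, mul_one]

theorem chi_lett (p : Lt) (hp : p.1 ≠ 0) : chi (lett p) ≠ 1 := by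
  obtain ⟨i, s⟩ := p
  have hi : i = 1 ∨ i = 2 := by
    fin_cases i
    · exact absurd rfl hp
    · exact Or.inl rfl
    · exact Or.inr rfl
  rcases hi with rfl | rfl
  · cases s
    · change chi b⁻¹ ≠ 1
      rw [map_inv, chi_b]
      decide
    · change chi b ≠ 1
      rw [chi_b]
      decide
  · cases s
    · change chi c⁻¹ ≠ 1
      rw [map_inv, chi_c]
      decide
    · change chi c ≠ 1
      rw [chi_c]
      decide

theorem no_inversion (g : G) (u v : V) (h : T.Adj u v) : ¬ (g • u = v ∧ g • v = u) := by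
  rintro ⟨h1, h2⟩
  obtain ⟨f, p, hp, rfl, rfl⟩ := h
  rw [smul_pi] at h1 h2
  have e1 := chi_pi _ _ h1
  have e2 := chi_pi _ _ h2
  rw [map_mul, chi_Th, map_mul] at e1 e2
  apply chi_lett p hp
  apply Multiplicative.toAdd.injective
  have e1' := congrArg Multiplicative.toAdd e1
  have e2' := congrArg Multiplicative.toAdd e2
  simp only [toAdd_mul] at e1' e2'
  rw [toAdd_one]
  omega

theorem adj_smul' (g : G) (u v : V) (h : T.Adj u v) : T.Adj (g • u) (g • v) := adj_smul g h

theorem vertex_orbits : ∃ S : Finset V, ∀ v : V, ∃ g : G, g • v ∈ S := by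
  refine ⟨{v0}, fun v => ?_⟩
  obtain ⟨g, hg⟩ := MulAction.exists_smul_eq G v v0
  exact ⟨g, by rw [hg]; simp⟩

theorem edge_orbits : ∃ E : Finset (V × V), ∀ u v : V, T.Adj u v →
    ∃ g : G, (g • u, g • v) ∈ E := by
  classical
  refine ⟨Finset.univ.image (fun p : Lt => (v0, pi (lett p))), ?_⟩
  rintro u v ⟨f, p, hp, rfl, rfl⟩
  refine ⟨inl f⁻¹, ?_⟩
  rw [inl_smul_pi, inl_smul_pi, inv_mul_cancel, inv_mul_cancel_left, Finset.mem_image]
  exact ⟨p, Finset.mem_univ _, rfl⟩

theorem a_pow_inj {m n : ℤ} (h : a ^ m = a ^ n) : m = n := by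
  have h1 := congrArg (fun z => Multiplicative.toAdd (expo 0 z)) h
  simpa [a, expo_self, map_zpow] using h1

theorem a_pow_eq_one {m : ℤ} (h : a ^ m = 1) : m = 0 := a_pow_inj (by rw [h, zpow_zero])

/-- parametrization of the stabilizer of the base vertex -/
noncomputable def homH : Multiplicative (Fin 2 → ℤ) →* H where
  toFun x := ⟨inl (a ^ (Multiplicative.toAdd x 0)) * t (Multiplicative.toAdd x 1), by
    rw [mem_H]
    exact ⟨Multiplicative.toAdd x 0, by simp [-map_zpow]⟩⟩
  map_one' := by
    apply Subtype.ext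
    apply SemidirectProduct.ext
    · simp
    · simp
  map_mul' x y := by
    apply Subtype.ext
    apply SemidirectProduct.ext
    · change a ^ (Multiplicative.toAdd x 0 + Multiplicative.toAdd y 0) *
        Th 0 1 = (a ^ Multiplicative.toAdd x 0 * Th 0 1) *
          Th (0 + Multiplicative.toAdd x 1) (a ^ Multiplicative.toAdd y 0 * Th 0 1)
      rw [map_one, mul_one, mul_one, mul_one, map_zpow, Th_a, zpow_add]
    · simp [-map_zpow]

theorem homH_left (x : Multiplicative (Fin 2 → ℤ)) :
    (homH x : G).left = a ^ (Multiplicative.toAdd x 0) := by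
  simp [homH, -map_zpow]

theorem homH_right (x : Multiplicative (Fin 2 → ℤ)) :
    (homH x : G).right = Multiplicative.ofAdd (Multiplicative.toAdd x 1) := by
  simp [homH, -map_zpow]

theorem homH_bij : Function.Bijective homH := by
  constructor
  · intro x y hxy
    have h1 := congrArg (fun z : H => (z : G).left) hxy
    have h2 := congrArg (fun z : H => (z : G).right) hxy
    simp only [homH_left, homH_right] at h1 h2
    have h3 := a_pow_inj h1
    have h4 := Multiplicative.ofAdd.injective h2
    apply Multiplicative.toAdd.injective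
    ext i
    fin_cases i
    · exact h3
    · exact h4
  · rintro ⟨g, k, hk⟩
    have hk' : a ^ k = g.left := hk
    refine ⟨Multiplicative.ofAdd ![k, Multiplicative.toAdd g.right], ?_⟩
    apply Subtype.ext
    apply SemidirectProduct.ext
    · rw [homH_left, ← hk']
      simp
    · rw [homH_right]
      simp

/-- the stabilizer of the base vertex -/
noncomputable def equivH : Multiplicative (Fin 2 → ℤ) ≃* H := MulEquiv.ofBijective homH homH_bij

theorem vertex_stabs (v : V) :
    ∃ n : ℕ, Nonempty (↥(MulAction.stabilizer G v) ≃* Multiplicative (Fin n → ℤ)) := by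
  refine ⟨2, ?_⟩
  obtain ⟨g, hg⟩ := MulAction.exists_smul_eq G v0 v
  have h1 : MulAction.stabilizer G v0 = H := MulAction.stabilizer_quotient H
  have e1 : MulAction.stabilizer G v0 ≃* H := MulEquiv.subgroupCongr h1
  have e2 : MulAction.stabilizer G v0 ≃* MulAction.stabilizer G v :=
    MulAction.stabilizerEquivStabilizer hg.symm
  exact ⟨(e2.symm.trans e1).trans equivH.symm⟩

theorem lett_comm (p : Lt) (hp : p.1 ≠ 0) (k l : ℤ) (h : a ^ k * lett p = lett p * a ^ l) :
    k = 0 := by
  by_contra hk
  have h1 := congrArg (fun z => Multiplicative.toAdd (expo 0 z)) h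
  simp only [a, expo_self, map_mul, map_zpow, toAdd_mul, toAdd_zpow, toAdd_ofAdd, smul_eq_mul]
    at h1
  have hkl : k = l := by omega
  subst hkl
  obtain ⟨w, m, n, h2, h3⟩ := comm_roots _ _ h
  have hm : m ≠ 0 := by
    rintro rfl
    rw [zpow_zero] at h2
    exact hk (a_pow_eq_one h2)
  obtain ⟨i, s⟩ := p
  have h4 : (a ^ k) ^ n = (lett (i, s)) ^ m := by
    rw [h2, h3, ← zpow_mul, ← zpow_mul, mul_comm]
  have h5 := congrArg (fun z => Multiplicative.toAdd (expo i z)) h4
  have h6 : expo i a = 1 := expo_other hp.symm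
  have h7 : Multiplicative.toAdd (expo i (lett (i, s))) ≠ 0 := by
    cases s
    · change Multiplicative.toAdd (expo i (of i)⁻¹) ≠ 0
      rw [map_inv, expo_self]
      simp
    · change Multiplicative.toAdd (expo i (of i)) ≠ 0
      rw [expo_self]
      simp
  simp only [map_zpow, h6, one_zpow, toAdd_one, toAdd_zpow, smul_eq_mul] at h5
  rcases mul_eq_zero.1 h5.symm with h8 | h8
  · exact hm h8
  · exact h7 h8

theorem edge_stabs (u v : V) (h : T.Adj u v) :
    IsCyclic ↥(MulAction.stabilizer G u ⊓ MulAction.stabilizer G v) := by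
  obtain ⟨f, p, hp, rfl, rfl⟩ := h
  let ρ : ↥(MulAction.stabilizer G (pi f) ⊓ MulAction.stabilizer G (pi (f * lett p))) →*
      Multiplicative ℤ := SemidirectProduct.rightHom.comp (Subgroup.subtype _)
  have hcy : IsCyclic (Multiplicative ℤ) := inferInstance
  refine isCyclic_of_injective ρ ?_
  rw [injective_iff_map_eq_one]
  rintro ⟨g, hg1, hg2⟩ hg
  have hg' : g.right = 1 := hg
  have h1 : g • pi f = pi f := hg1
  have h2 : g • pi (f * lett p) = pi (f * lett p) := hg2
  rw [smul_pi, hg', toAdd_one, Th_zero, MonoidHom.id_apply, eq_comm, pi_eq] at h1 h2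
  obtain ⟨k, hk⟩ := h1
  obtain ⟨l, hl⟩ := h2
  have h3 : a ^ k * lett p = lett p * a ^ l := by
    have e1 : a ^ k = f⁻¹ * (g.left * f) := by rw [hk]; group
    have e2 : g.left * (f * lett p) = f * lett p * a ^ l := hl
    rw [e1]
    have e3 : lett p * a ^ l = f⁻¹ * (g.left * (f * lett p)) := by rw [e2]; group
    rw [e3]
    group
  have h4 := lett_comm p hp k l h3
  subst h4
  rw [zpow_zero, mul_one, mul_eq_right] at hk
  apply Subtype.ext
  exact SemidirectProduct.ext hk hg'

end Q27.Gersten
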