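import Pool.Agent.Q27.Gersten.Level
import Pool.Agent.Q27.RelComm.FreeFacts

/-! The free-by-cyclic group `⟨a, b, c, t | [a, t] = 1, b⁻¹ t b = a t, c⁻¹ t c = a² t⟩` and its
action on a tree. -/

namespace Q27.Gersten

open FreeGroup (of lift)

/-- the free group of rank three -/
abbrev F := FreeGroup (Fin 3)

/-- generators -/
def a : F := of 0
/-- generators -/
def b : F := of 1
/-- generators -/
def c : F := of 2

/-- the endomorphism `a ↦ a, b ↦ b aⁿ, c ↦ c a²ⁿ` -/
def Th (n : ℤ) : F →* F := lift ![a, b * a ^ n, c * a ^ (2 * n)]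

@[simp] theorem Th_a (n : ℤ) : Th n a = a := by simp [Th, a]

@[simp] theorem Th_b (n : ℤ) : Th n b = b * a ^ n := by simp [Th, b]

@[simp] theorem Th_c (n : ℤ) : Th n c = c * a ^ (2 * n) := by simp [Th, c]

theorem Th_add (m n : ℤ) : Th (m + n) = (Th m).comp (Th n) := by
  ext i
  fin_cases i
  · change Th (m + n) a = Th m (Th n a)
    simp
  · change Th (m + n) b = Th m (Th n b)
    simp [zpow_add, mul_assoc]
  · change Th (m + n) c = Th m (Th n c)
    simp only [Th_c, map_mul, map_zpow, Th_a, mul_assoc]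
    rw [← zpow_add]
    congr 2
    ring

theorem Th_zero : Th 0 = MonoidHom.id F := by
  ext i
  fin_cases i
  · change Th 0 a = a
    simp
  · change Th 0 b = b
    simp
  · change Th 0 c = c
    simp

theorem Th_Th_neg (n : ℤ) (x : F) : Th n (Th (-n) x) = x := by
  have := DFunLike.congr_fun (Th_add n (-n)) x
  rw [add_neg_cancel, Th_zero] at this
  exact this.symm

theorem Th_neg_Th (n : ℤ) (x : F) : Th (-n) (Th n x) = x := by
  have := DFunLike.congr_fun (Th_add (-n) n) x
  rw [neg_add_cancel, Th_zero] at this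
  exact this.symm

/-- the action of `⟨t⟩` on the free group -/
def theta : Multiplicative ℤ →* MulAut F where
  toFun n :=
    { toFun := Th (Multiplicative.toAdd n)
      invFun := Th (-Multiplicative.toAdd n)
      left_inv := Th_neg_Th _
      right_inv := Th_Th_neg _
      map_mul' := map_mul _ }
  map_one' := by
    ext x
    change Th 0 _ = _
    rw [Th_zero]
    rfl
  map_mul' m n := by
    ext x
    change Th (Multiplicative.toAdd m + Multiplicative.toAdd n) _ = Th _ (Th _ _)
    rw [Th_add]
    rfl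

theorem theta_apply (n : Multiplicative ℤ) (x : F) : theta n x = Th (Multiplicative.toAdd n) x :=
  rfl

/-- Gersten's group -/
abbrev G := F ⋊[theta] Multiplicative ℤ

/-- the subgroup `⟨a, t⟩` -/
def H : Subgroup G where
  carrier := {g | (g.left : F) ∈ Subgroup.zpowers a}
  one_mem' := (Subgroup.zpowers a).one_mem
  mul_mem' := by
    rintro x y hx ⟨k, hk⟩
    change x.left * theta x.right y.left ∈ Subgroup.zpowers a
    have hk' : a ^ k = y.left := hk
    rw [theta_apply, ← hk', map_zpow, Th_a]
    exact (Subgroup.zpowers a).mul_mem hx ⟨k, rfl⟩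
  inv_mem' := by
    rintro x ⟨k, hk⟩
    change theta x.right⁻¹ x.left⁻¹ ∈ Subgroup.zpowers a
    have hk' : a ^ k = x.left := hk
    rw [theta_apply, ← hk', map_inv, map_zpow, Th_a]
    exact (Subgroup.zpowers a).inv_mem ⟨k, rfl⟩

theorem mem_H (g : G) : g ∈ H ↔ g.left ∈ Subgroup.zpowers a := Iff.rfl

/-- the vertices of the tree -/
abbrev V := G ⧸ H

/-- the base vertex -/
def v0 : V := ((1 : G) : G ⧸ H)

/-- inclusion of the free group -/
def inl : F →* G := SemidirectProduct.inl

/-- the stable element -/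
def t (n : ℤ) : G := SemidirectProduct.inr (Multiplicative.ofAdd n)

@[simp] theorem inl_left (f : F) : (inl f).left = f := rfl
@[simp] theorem inl_right (f : F) : (inl f).right = 1 := rfl
@[simp] theorem t_left (n : ℤ) : (t n).left = 1 := rfl
@[simp] theorem t_right (n : ℤ) : (t n).right = Multiplicative.ofAdd n := rfl

theorem eq_inl_t (g : G) : g = inl g.left * t (Multiplicative.toAdd g.right) := by
  apply SemidirectProduct.ext
  · simp
  · simp

theorem t_mul_inl (n : ℤ) (f : F) : t n * inl f = inl (Th n f) * t n := by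
  apply SemidirectProduct.ext
  · simp [theta_apply]
  · simp

/-- the orbit map of the free group -/
def pi (f : F) : V := ((inl f : G) : G ⧸ H)

theorem pi_one : pi 1 = v0 := rfl

theorem coe_eq_pi (g : G) : ((g : G) : V) = pi g.left := by
  unfold pi
  rw [QuotientGroup.eq, mem_H]
  change theta g.right⁻¹ g.left⁻¹ * theta g.right⁻¹ g.left ∈ _
  rw [← map_mul, inv_mul_cancel, map_one]
  exact one_mem _

theorem pi_surj (v : V) : ∃ f, v = pi f := by
  obtain ⟨g, rfl⟩ := QuotientGroup.mk_surjective v
  exact ⟨g.left, coe_eq_pi g⟩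

theorem pi_eq (f f' : F) : pi f = pi f' ↔ ∃ k : ℤ, f' = f * a ^ k := by
  unfold pi
  rw [QuotientGroup.eq, mem_H]
  have h1 : ((inl f)⁻¹ * inl f').left = f⁻¹ * f' := by
    rw [← map_inv, ← map_mul]
    rfl
  rw [h1]
  constructor
  · rintro ⟨k, hk⟩
    have hk' : a ^ k = f⁻¹ * f' := hk
    exact ⟨k, by rw [hk']; group⟩
  · rintro ⟨k, rfl⟩
    exact ⟨k, by simp⟩

theorem smul_pi (g : G) (f : F) : g • pi f = pi (g.left * Th (Multiplicative.toAdd g.right) f) := by
  change ((g * inl f : G) : V) = _
  rw [coe_eq_pi]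
  rfl

theorem inl_smul_pi (f f' : F) : inl f • pi f' = pi (f * f') := by
  rw [smul_pi]
  simp only [inl_left, inl_right, toAdd_one, Th_zero]
  rfl

/-- letters -/
abbrev Lt := Fin 3 × Bool

/-- the element of a letter -/
def lett (p : Lt) : F := FreeGroup.mk [p]

/-- inverse letter -/
def bar (p : Lt) : Lt := (p.1, !p.2)

@[simp] theorem bar_bar (p : Lt) : bar (bar p) = p := by simp [bar]

@[simp] theorem bar_fst (p : Lt) : (bar p).1 = p.1 := rfl

theorem lett_bar (p : Lt) : lett (bar p) = (lett p)⁻¹ := by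
  obtain ⟨i, s⟩ := p
  cases s <;> rfl

/-- images of the letters other than `a` -/
theorem Th_lett (n : ℤ) (p : Lt) (hp : p.1 ≠ 0) :
    ∃ k l : ℤ, Th n (lett p) = a ^ k * lett p * a ^ l := by
  obtain ⟨i, s⟩ := p
  have hi : i = 1 ∨ i = 2 := by
    fin_cases i
    · exact absurd rfl hp
    · exact Or.inl rfl
    · exact Or.inr rfl
  rcases hi with rfl | rfl
  · cases s
    · refine ⟨-n, 0, ?_⟩
      change Th n b⁻¹ = a ^ (-n) * b⁻¹ * a ^ (0 : ℤ)
      rw [map_inv, Th_b]
      group
    · refine ⟨0, n, ?_⟩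
      change Th n b = a ^ (0 : ℤ) * b * a ^ n
      rw [Th_b]
      group
  · cases s
    · refine ⟨-(2 * n), 0, ?_⟩
      change Th n c⁻¹ = a ^ (-(2 * n)) * c⁻¹ * a ^ (0 : ℤ)
      rw [map_inv, Th_c]
      group
    · refine ⟨0, 2 * n, ?_⟩
      change Th n c = a ^ (0 : ℤ) * c * a ^ (2 * n)
      rw [Th_c]
      group

/-- adjacency -/
def Adj (u v : V) : Prop := ∃ (f : F) (p : Lt), p.1 ≠ 0 ∧ u = pi f ∧ v = pi (f * lett p)

theorem adj_symm {u v : V} (h : Adj u v) : Adj v u := by
  obtain ⟨f, p, hp, rfl, rfl⟩ := h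
  refine ⟨f * lett p, bar p, hp, rfl, ?_⟩
  rw [lett_bar, mul_inv_cancel_right]

theorem adj_smul (g : G) {u v : V} (h : Adj u v) : Adj (g • u) (g • v) := by
  obtain ⟨f, p, hp, rfl, rfl⟩ := h
  obtain ⟨k, l, hkl⟩ := Th_lett (Multiplicative.toAdd g.right) p hp
  refine ⟨g.left * Th (Multiplicative.toAdd g.right) f * a ^ k, p, hp, ?_, ?_⟩
  · rw [smul_pi, pi_eq]
    exact ⟨k, rfl⟩
  · rw [smul_pi, map_mul, hkl, eq_comm, pi_eq]
    exact ⟨l, by simp only [mul_assoc]⟩

theorem append_cancel (f : F) (w : List Lt) (p : Lt) (h : f.toWord = w ++ [bar p]) :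
    (f * lett p).toWord = w ∧ f * lett p = FreeGroup.mk w := by
  have h1 : f = FreeGroup.mk w * lett (bar p) := by
    conv_lhs => rw [← FreeGroup.mk_toWord (x := f), h]
    rw [lett, FreeGroup.mul_mk]
  have h2 : f * lett p = FreeGroup.mk w := by
    rw [h1, lett_bar, inv_mul_cancel_right]
  refine ⟨?_, h2⟩
  rw [h2, FreeGroup.toWord_mk]
  have h3 : FreeGroup.IsReduced (w ++ [bar p]) := by
    rw [← h]
    exact FreeGroup.isReduced_toWord
  exact FreeGroup.IsReduced.reduce_eq
    (show FreeGroup.IsReduced w from (List.isChain_append.1 h3).1)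

theorem append_letter (f : F) (p : Lt) (h : bar p ∉ f.toWord.getLast?) :
    (f * lett p).toWord = f.toWord ++ [p] := by
  have hr : FreeGroup.IsReduced (f.toWord ++ [p]) := by
    unfold FreeGroup.IsReduced
    rw [List.isChain_append]
    refine ⟨FreeGroup.isReduced_toWord, List.isChain_singleton _, ?_⟩
    intro x hx y hy h1
    simp only [List.head?_cons, Option.mem_def, Option.some.injEq] at hy
    subst hy
    by_contra h2
    apply h
    have h3 : x = bar p := by
      obtain ⟨i, s⟩ := x
      obtain ⟨j, r⟩ := p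
      simp only [bar, Prod.mk.injEq] at h1 h2 ⊢
      refine ⟨h1, ?_⟩
      cases s <;> cases r <;> simp_all
    rw [← h3]
    exact hx
  have h1 : f * lett p = FreeGroup.mk (f.toWord ++ [p]) := by
    conv_lhs => rw [← FreeGroup.mk_toWord (x := f)]
    rw [lett, FreeGroup.mul_mk]
  rw [h1, FreeGroup.toWord_mk, hr.reduce_eq]

/-- number of letters other than `a` -/
def ell (f : F) : ℕ := f.toWord.countP (fun p => p.1 ≠ 0)

theorem ell_lett (f : F) (p : Lt) (hp : p.1 ≠ 0) :
    (f.toWord.getLast? = some (bar p) ∧ ell f = ell (f * lett p) + 1) ∨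
      (f.toWord.getLast? ≠ some (bar p) ∧ ell (f * lett p) = ell f + 1) := by
  by_cases h : f.toWord.getLast? = some (bar p)
  · left
    refine ⟨h, ?_⟩
    obtain ⟨w, hw⟩ : ∃ w, f.toWord = w ++ [bar p] := by
      rw [List.getLast?_eq_some_iff] at h
      exact h
    unfold ell
    rw [(append_cancel f w p hw).1, hw, List.countP_append]
    simp [hp]
  · right
    refine ⟨h, ?_⟩
    unfold ell
    rw [append_letter f p h, List.countP_append]
    simp [hp]

theorem ell_lett_zero (f : F) (p : Lt) (hp : p.1 = 0) : ell (f * lett p) = ell f := by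
  by_cases h : f.toWord.getLast? = some (bar p)
  · obtain ⟨w, hw⟩ : ∃ w, f.toWord = w ++ [bar p] := by
      rw [List.getLast?_eq_some_iff] at h
      exact h
    unfold ell
    rw [(append_cancel f w p hw).1, hw, List.countP_append]
    simp [hp]
  · unfold ell
    rw [append_letter f p h, List.countP_append]
    simp [hp]

theorem lett_a_true : lett (0, true) = a := rfl

theorem lett_a_false : lett (0, false) = a⁻¹ := rfl

theorem ell_pow (f : F) (k : ℤ) : ell (f * a ^ k) = ell f := by
  have key : ∀ (s : Bool) (n : ℕ), ell (f * lett (0, s) ^ n) = ell f := by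
    intro s n
    induction n with
    | zero => simp
    | succ n ih => rw [pow_succ, ← mul_assoc, ell_lett_zero _ _ rfl, ih]
  rcases Int.eq_nat_or_neg k with ⟨n, rfl | rfl⟩
  · rw [zpow_natCast]
    exact key true n
  · rw [zpow_neg, zpow_natCast, ← inv_pow]
    exact key false n

/-- after a letter other than `a`, powers of `a` are appended -/
theorem last_pow (f : F) (q : Lt) (hq : q.1 ≠ 0) (hf : f.toWord.getLast? = some q) (k : ℤ)
    (hk : k ≠ 0) : ∃ r : Lt, r.1 = 0 ∧ (f * a ^ k).toWord.getLast? = some r := by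
  have key : ∀ (s : Bool) (n : ℕ), (f * lett (0, s) ^ (n + 1)).toWord.getLast? = some (0, s) := by
    intro s n
    induction n with
    | zero =>
      rw [zero_add, pow_one, append_letter]
      · simp
      · rw [hf, Option.mem_def, Option.some.injEq]
        intro h
        apply hq
        rw [h]
        rfl
    | succ n ih =>
      rw [pow_succ, ← mul_assoc, append_letter]
      · simp
      · rw [ih, Option.mem_def, Option.some.injEq]
        cases s <;> simp [bar]
  rcases Int.eq_nat_or_neg k with ⟨n, rfl | rfl⟩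
  · obtain ⟨m, rfl⟩ : ∃ m, n = m + 1 := ⟨n - 1, by omega⟩
    refine ⟨(0, true), rfl, ?_⟩
    rw [zpow_natCast]
    exact key true m
  · obtain ⟨m, rfl⟩ : ∃ m, n = m + 1 := ⟨n - 1, by omega⟩
    refine ⟨(0, false), rfl, ?_⟩
    rw [zpow_neg, zpow_natCast, ← inv_pow]
    exact key false m

/-- the level of a vertex -/
noncomputable def lev (v : V) : ℕ := ell (Classical.choose (pi_surj v))

theorem lev_pi (f : F) : lev (pi f) = ell f := by
  have h := Classical.choose_spec (pi_surj (pi f))
  rw [pi_eq] at h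
  obtain ⟨k, hk⟩ := h
  unfold lev
  rw [hk, ell_pow]

theorem lev_adj (u v : V) (h : Adj u v) : lev u = lev v + 1 ∨ lev v = lev u + 1 := by
  obtain ⟨f, p, hp, rfl, rfl⟩ := h
  rw [lev_pi, lev_pi]
  rcases ell_lett f p hp with h | h
  · exact Or.inl h.2
  · exact Or.inr h.2

theorem lower_unique (v x y : V) (hx : Adj v x) (hy : Adj v y) (h1 : lev v = lev x + 1)
    (h2 : lev v = lev y + 1) : x = y := by
  obtain ⟨f, p, hp, rfl, rfl⟩ := hx
  obtain ⟨f', p', hp', hff', rfl⟩ := hy
  rw [lev_pi, lev_pi] at h1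
  rw [hff', lev_pi, lev_pi] at h2
  have e1 : f.toWord.getLast? = some (bar p) := by
    rcases ell_lett f p hp with h | h
    · exact h.1
    · omega
  have e2 : f'.toWord.getLast? = some (bar p') := by
    rcases ell_lett f' p' hp' with h | h
    · exact h.1
    · omega
  rw [pi_eq] at hff'
  obtain ⟨k, rfl⟩ := hff'
  by_cases hk : k = 0
  · subst hk
    rw [zpow_zero, mul_one] at e2 ⊢
    rw [e1] at e2
    have := Option.some.inj e2
    have hpp : p = p' := by rw [← bar_bar p, this, bar_bar]
    rw [hpp]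
  · obtain ⟨r, hr, hr2⟩ := last_pow f (bar p) hp e1 k hk
    rw [hr2] at e2
    have := Option.some.inj e2
    rw [this] at hr
    exact absurd hr hp'

/-- the tree -/
def T : SimpleGraph V where
  Adj := Adj
  symm := ⟨fun _ _ h => adj_symm h⟩
  loopless := ⟨by
    intro v h
    rcases lev_adj v v h with h | h <;> omega⟩

theorem T_connected : T.Connected := by
  have hreach : ∀ f : F, T.Reachable v0 (pi f) := by
    have hmap : ∀ (f : F) (u v : V), T.Reachable u v → T.Reachable (inl f • u) (inl f • v) := by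
      intro f u v h
      obtain ⟨w⟩ := h
      induction w with
      | nil => exact SimpleGraph.Reachable.refl _
      | cons h _ ih => exact (SimpleGraph.Adj.reachable (G := T) (adj_smul (inl f) h)).trans ih
    intro f
    induction f using FreeGroup.induction_on with
    | C1 => exact SimpleGraph.Reachable.refl _
    | of i =>
      by_cases hi : i = 0
      · subst hi
        have : pi (of 0) = v0 := by
          rw [← pi_one, eq_comm, pi_eq]
          exact ⟨1, by simp [a]⟩
        rw [this]
      · apply SimpleGraph.Adj.reachable (G := T)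
        exact ⟨1, (i, true), hi, rfl, by rw [one_mul]; rfl⟩
    | inv_of i _ =>
      by_cases hi : i = 0
      · subst hi
        have : pi (of 0)⁻¹ = v0 := by
          rw [← pi_one, eq_comm, pi_eq]
          exact ⟨-1, by simp [a]⟩
        rw [this]
      · apply SimpleGraph.Adj.reachable (G := T)
        exact ⟨1, (i, false), hi, rfl, by rw [one_mul]; rfl⟩
    | mul x y hx hy =>
      refine hx.trans ?_
      have := hmap x v0 (pi y) hy
      rw [inl_smul_pi, ← pi_one, inl_smul_pi, mul_one] at this
      exact this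
  have : Nonempty V := ⟨v0⟩
  refine SimpleGraph.Connected.mk ?_
  intro u v
  obtain ⟨f, rfl⟩ := pi_surj u
  obtain ⟨f', rfl⟩ := pi_surj v
  exact (hreach f).symm.trans (hreach f')

theorem T_isTree : T.IsTree :=
  ⟨T_connected, isAcyclic_of_level T lev lev_adj fun v x y => lower_unique v x y⟩

end Q27.Gersten
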