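import Mathlib

/-! A graph with a level function such that every vertex has at most one lower neighbour is
acyclic. -/

namespace Q27.Gersten

theorem isAcyclic_of_level {V : Type*} (T : SimpleGraph V) (L : V → ℕ)
    (h1 : ∀ u v, T.Adj u v → L u = L v + 1 ∨ L v = L u + 1)
    (h2 : ∀ v x y, T.Adj v x → T.Adj v y → L v = L x + 1 → L v = L y + 1 → x = y) :
    T.IsAcyclic := by
  classical
  intro v c hc
  obtain ⟨m, hm, hmax⟩ := Finset.exists_max_image c.support.toFinset L
    ⟨v, by simp⟩
  rw [List.mem_toFinset] at hm
  have hc' : (c.rotate m hm).IsCycle := hc.rotate hm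
  have hnil := hc'.not_nil
  have a1 := (c.rotate m hm).adj_snd hnil
  have a2 := (c.rotate m hm).adj_penultimate hnil
  have s1 : (c.rotate m hm).snd ∈ c.support := by
    rw [← SimpleGraph.Walk.mem_support_rotate_iff c m hm]
    exact SimpleGraph.Walk.getVert_mem_support _ _
  have s2 : (c.rotate m hm).penultimate ∈ c.support := by
    rw [← SimpleGraph.Walk.mem_support_rotate_iff c m hm]
    exact SimpleGraph.Walk.getVert_mem_support _ _
  have l1 := hmax _ (List.mem_toFinset.2 s1)
  have l2 := hmax _ (List.mem_toFinset.2 s2)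
  apply hc'.snd_ne_penultimate
  apply h2 m _ _ a1 a2.symm
  · rcases h1 _ _ a1 with h | h
    · exact h
    · omega
  · rcases h1 _ _ a2 with h | h
    · omega
    · exact h

end Q27.Gersten
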