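import Pool.Agent.Q27.Gersten.Act

/-! The cyclic subgroup `⟨a⟩` is not a virtual retract. -/

namespace Q27.Gersten

open FreeGroup (of lift)
open Q27.FreeFacts

/-- transfer-type obstruction: if `x, y` commute in `G` and `y, x y, x² y` are all conjugate, then
`x` has no nontrivial power visible in the abelianization of a finite-index normal subgroup -/
theorem trace_obstruction {G : Type*} [Group G] (N : Subgroup G) [hN : N.Normal] [N.FiniteIndex]
    (ψ : N →* Multiplicative ℤ) (x y : N) (g₁ g₂ : G)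
    (h₁ : MulAut.conjNormal g₁ y = x * y) (h₂ : MulAut.conjNormal g₂ y = x ^ 2 * y) :
    ψ x = 1 := by
  classical
  have hfin : Finite (G ⧸ N) := Subgroup.finite_quotient_of_finiteIndex
  have hft : Fintype (G ⧸ N) := Fintype.ofFinite _
  let D : G ⧸ N → N → ℤ := fun q z => Multiplicative.toAdd (ψ (MulAut.conjNormal q.out z))
  have hD : ∀ (g : G) (z : N), D (g : G ⧸ N) z = Multiplicative.toAdd (ψ (MulAut.conjNormal g z)) := by
    intro g z
    obtain ⟨n, hn⟩ := QuotientGroup.mk_out_eq_mul N g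
    have h3 : MulAut.conjNormal ((g : G ⧸ N)).out z =
        (MulAut.conjNormal g n) * MulAut.conjNormal g z * (MulAut.conjNormal g n)⁻¹ := by
      rw [hn, ← map_inv, ← map_mul, ← map_mul]
      apply Subtype.ext
      simp [mul_assoc]
    change Multiplicative.toAdd (ψ (MulAut.conjNormal ((g : G ⧸ N)).out z)) = _
    have h4 : ψ ((MulAut.conjNormal g) n * (MulAut.conjNormal g) z *
        ((MulAut.conjNormal g) n)⁻¹) = ψ ((MulAut.conjNormal g) z) := by
      rw [map_mul ψ, map_mul ψ, map_inv ψ, mul_right_comm, mul_inv_cancel, one_mul]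
    rw [h3, h4]
  have hconj : ∀ (g : G) (q : G ⧸ N) (z : N), D q (MulAut.conjNormal g z) = D (q * g) z := by
    intro g q z
    obtain ⟨h, rfl⟩ := QuotientGroup.mk_surjective q
    rw [hD, ← QuotientGroup.mk_mul, hD, map_mul]
    rfl
  have hsum : ∀ (g : G) (z : N), ∑ q, D q (MulAut.conjNormal g z) ^ 2 = ∑ q, D q z ^ 2 := by
    intro g z
    simp only [hconj]
    exact Equiv.sum_comp (Equiv.mulRight (g : G ⧸ N)) (fun q => D q z ^ 2)
  have hmul : ∀ q z w, D q (z * w) = D q z + D q w := by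
    intro q z w
    change Multiplicative.toAdd _ = _
    rw [map_mul, map_mul, toAdd_mul]
  have e1 := hsum g₁ y
  have e2 := hsum g₂ y
  rw [h₁] at e1
  rw [h₂, pow_two] at e2
  simp only [hmul] at e1 e2
  have e3 : ∑ q, D q x ^ 2 = 0 := by
    have h4 : 2 * ∑ q, D q x ^ 2 = ∑ q, (D q x + D q x + D q y) ^ 2 -
        2 * ∑ q, (D q x + D q y) ^ 2 + ∑ q, D q y ^ 2 := by
      rw [Finset.mul_sum, Finset.mul_sum, ← Finset.sum_sub_distrib, ← Finset.sum_add_distrib]
      apply Finset.sum_congr rfl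
      intro q _
      ring
    rw [e1, e2] at h4
    omega
  have e4 := (Finset.sum_eq_zero_iff_of_nonneg (fun q _ => sq_nonneg (D q x))).1 e3
    ((1 : G) : G ⧸ N) (Finset.mem_univ _)
  rw [hD, map_one] at e4
  have e5 := pow_eq_zero_iff (two_ne_zero) |>.1 e4
  exact e5

/-- the element `a` of the big group -/
abbrev A : G := inl a

theorem A_zpow_inj {m n : ℤ} (h : A ^ m = A ^ n) : m = n := by
  have h1 : inl (a ^ m) = inl (a ^ n) := by rw [map_zpow, map_zpow]; exact h
  exact a_pow_inj (congrArg SemidirectProduct.left h1)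

theorem conj_b (n : ℤ) : (inl b)⁻¹ * t n * inl b = A ^ n * t n := by
  rw [mul_assoc, t_mul_inl, Th_b, map_mul, map_zpow]
  group

theorem conj_c (n : ℤ) : (inl c)⁻¹ * t n * inl c = A ^ (2 * n) * t n := by
  rw [mul_assoc, t_mul_inl, Th_c, map_mul, map_zpow]
  group

theorem t_pow (n : ℤ) : t 1 ^ n = t n := by
  unfold t
  rw [← map_zpow, ← ofAdd_zsmul, smul_eq_mul, mul_one]

theorem not_vr (K : Subgroup G) (hK : K.FiniteIndex) (r : K →* G) (h1 : ∀ k : K, r k ∈ Subgroup.zpowers A)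
    (h2 : ∀ k : K, (k : G) ∈ Subgroup.zpowers A → r k = k) : False := by
  obtain ⟨N, hN⟩ : ∃ N, N = K.normalCore := ⟨_, rfl⟩
  have hnor : N.Normal := by rw [hN]; infer_instance
  have hfi : N.FiniteIndex := by rw [hN]; infer_instance
  have hle : N ≤ K := by rw [hN]; exact K.normalCore_le
  choose e he using fun k : K => (Subgroup.mem_zpowers_iff.1 (h1 k))
  let ψ : N →* Multiplicative ℤ :=
    { toFun := fun n => Multiplicative.ofAdd (e (Subgroup.inclusion hle n))
      map_one' := by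
        have h3 := he (Subgroup.inclusion hle 1)
        rw [map_one, map_one] at h3
        rw [map_one]
        have h4 : e 1 = 0 := A_zpow_inj (by rw [h3, zpow_zero])
        rw [h4, ofAdd_zero]
      map_mul' := by
        intro x y
        rw [← ofAdd_add]
        congr 1
        apply A_zpow_inj
        rw [he, zpow_add, he, he, map_mul, map_mul] }
  obtain ⟨m, hm⟩ : ∃ m, m = N.index := ⟨_, rfl⟩
  have hm0 : m ≠ 0 := by rw [hm]; exact hfi.index_ne_zero
  have hx : A ^ (m : ℤ) ∈ N := by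
    rw [zpow_natCast, hm]
    exact Subgroup.pow_index_mem N A
  have hy : t m ∈ N := by
    rw [← t_pow, zpow_natCast, hm]
    exact Subgroup.pow_index_mem N _
  have key := trace_obstruction N ψ ⟨A ^ (m : ℤ), hx⟩ ⟨t m, hy⟩ (inl b)⁻¹ (inl c)⁻¹ (by
    apply Subtype.ext
    change (inl b)⁻¹ * t m * (inl b)⁻¹⁻¹ = A ^ (m : ℤ) * t m
    rw [inv_inv, conj_b]) (by
    apply Subtype.ext
    change (inl c)⁻¹ * t m * (inl c)⁻¹⁻¹ = (A ^ (m : ℤ)) ^ 2 * t m
    rw [inv_inv, conj_c, mul_comm (2 : ℤ), zpow_mul, zpow_ofNat])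
  have h3 : e (Subgroup.inclusion hle ⟨A ^ (m : ℤ), hx⟩) = 0 := key
  have h4 := he (Subgroup.inclusion hle ⟨A ^ (m : ℤ), hx⟩)
  rw [h3, h2 _ ⟨m, rfl⟩] at h4
  have h5 : A ^ (0 : ℤ) = A ^ (m : ℤ) := h4
  have h6 := A_zpow_inj h5
  omega

end Q27.Gersten
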