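import Pool.Agent.Q27.Gersten.Grp
import Pool.Agent.Helper694.CS.J_free_rf
import Pool.Agent.Helper310.Step

/-! Cyclic subgroup separability. -/

namespace Q27.Gersten

open FreeGroup (of lift)

/-- the space acted on -/
abbrev Sp (P : Type) [Group P] := (F →* P) × P

/-- the free group acts through all the homomorphisms to `P` -/
def actF (P : Type) [Group P] : F →* Equiv.Perm (Sp P) where
  toFun f :=
    { toFun := fun x => (x.1, x.1 f * x.2)
      invFun := fun x => (x.1, (x.1 f)⁻¹ * x.2)
      left_inv := fun x => by simp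
      right_inv := fun x => by simp }
  map_one' := by
    apply Equiv.ext
    intro x
    simp
  map_mul' f g := by
    apply Equiv.ext
    intro x
    simp [mul_assoc]

/-- `t` acts by precomposition -/
def actT (P : Type) [Group P] : Multiplicative ℤ →* Equiv.Perm (Sp P) where
  toFun n :=
    { toFun := fun x => (x.1.comp (Th (-Multiplicative.toAdd n)), x.2)
      invFun := fun x => (x.1.comp (Th (Multiplicative.toAdd n)), x.2)
      left_inv := fun x => by
        apply Prod.ext
        · apply MonoidHom.ext
          intro y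
          simp [Th_neg_Th]
        · rfl
      right_inv := fun x => by
        apply Prod.ext
        · apply MonoidHom.ext
          intro y
          simp [Th_Th_neg]
        · rfl }
  map_one' := by
    apply Equiv.ext
    intro x
    apply Prod.ext
    · apply MonoidHom.ext
      intro y
      simp [Th_zero]
    · rfl
  map_mul' m n := by
    apply Equiv.ext
    intro x
    apply Prod.ext
    · apply MonoidHom.ext
      intro y
      simp only [Equiv.coe_fn_mk, MonoidHom.comp_apply, Equiv.Perm.coe_mul, Function.comp_apply,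
        toAdd_mul, neg_add]
      rw [add_comm, Th_add]
      rfl
    · rfl

/-- the action of the group -/
def act (P : Type) [Group P] : G →* Equiv.Perm (Sp P) :=
  SemidirectProduct.lift (actF P) (actT P) (by
    intro n
    apply MonoidHom.ext
    intro f
    apply Equiv.ext
    intro x
    apply Prod.ext
    · apply MonoidHom.ext
      intro y
      simp [actF, actT, theta_apply, Th_Th_neg]
    · simp [actF, actT, theta_apply])

theorem act_inl (P : Type) [Group P] (f : F) (x : Sp P) :
    act P (inl f) x = (x.1, x.1 f * x.2) := by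
  have : act P (inl f) = actF P f := SemidirectProduct.lift_inl _ _ _ _
  rw [this]
  rfl

theorem fin_sp (P : Type) [Group P] [Finite P] : Finite (Sp P) := by
  have : Finite (F →* P) := Finite.of_injective (fun x : F →* P => fun i : Fin 3 => x (of i))
    (fun x y h => by
      ext i
      exact congrFun h i)
  infer_instance

theorem sep_of_quot {Q : Type} [Group Q] [Finite Q] (q : G →* Q) (g h : G)
    (hh : q h ∉ Subgroup.zpowers (q g)) :
    ∃ K : Subgroup G, K.FiniteIndex ∧ Subgroup.zpowers g ≤ K ∧ h ∉ K := by
  refine ⟨(Subgroup.zpowers (q g)).comap q, ?_, ?_, hh⟩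
  · have h1 : ((Subgroup.zpowers (q g)).subgroupOf q.range).FiniteIndex := inferInstance
    refine ⟨?_⟩
    rw [Subgroup.index_comap]
    exact h1.index_ne_zero
  · rw [Subgroup.zpowers_le]
    exact Subgroup.mem_zpowers _

/-- the projection to `ℤ` -/
def rt : G →* Multiplicative ℤ := SemidirectProduct.rightHom

theorem rt_apply (g : G) : rt g = g.right := rfl

/-- reduction modulo `n` -/
def red (n : ℕ) : Multiplicative ℤ →* Multiplicative (ZMod n) :=
  AddMonoidHom.toMultiplicative (Int.castAddHom (ZMod n))

theorem red_apply (n : ℕ) (m : ℤ) :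
    red n (Multiplicative.ofAdd m) = Multiplicative.ofAdd (m : ZMod n) := rfl

theorem red_eq_one (n : ℕ) (m : Multiplicative ℤ) :
    red n m = 1 ↔ (n : ℤ) ∣ Multiplicative.toAdd m := by
  rw [← ZMod.intCast_zmod_eq_zero_iff_dvd]
  exact Iff.rfl

/-- finite quotients of the free group separate cyclic subgroups -/
theorem free_sep (f x : F) (hx : x ∉ Subgroup.zpowers f) :
    ∃ (P : Type) (_ : Group P) (_ : Finite P) (q : F →* P), q x ∉ Subgroup.zpowers (q f) := by
  obtain ⟨N, hN1, hN2, hN3⟩ : ∃ N : Subgroup F, Subgroup.zpowers f ≤ N ∧ x ∉ N ∧ N.index ≠ 0 := by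
    by_cases h : (Subgroup.zpowers f).index = 0
    · obtain ⟨N, h1, h2, h3⟩ := Pool.Agent.Helper310.Step.step (FreeGroupBasis.ofFreeGroup (Fin 3))
        (Subgroup.zpowers f) (by
          rw [Subgroup.zpowers_eq_closure]
          exact (Subgroup.fg_iff _).2 ⟨{f}, rfl, Set.finite_singleton f⟩) h x hx
      exact ⟨N, h1, h2, h3.ne_zero⟩
    · exact ⟨_, le_rfl, hx, h⟩
  have hfin : N.FiniteIndex := ⟨hN3⟩
  have hcore : N.normalCore.FiniteIndex := inferInstance
  refine ⟨F ⧸ N.normalCore, inferInstance, Subgroup.finite_quotient_of_finiteIndex,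
    QuotientGroup.mk' N.normalCore, ?_⟩
  rintro ⟨k, hk⟩
  have h1 : QuotientGroup.mk' N.normalCore (f ^ k) = QuotientGroup.mk' N.normalCore x := by
    rw [map_zpow]
    exact hk
  rw [QuotientGroup.mk'_apply, QuotientGroup.mk'_apply, QuotientGroup.eq] at h1
  have h2 := N.normalCore_le h1
  apply hN2
  have h3 : f ^ k ∈ N := hN1 ⟨k, rfl⟩
  have h4 := N.mul_mem h3 h2
  rwa [mul_inv_cancel_left] at h4

theorem css (g h : G) (hgh : h ∉ Subgroup.zpowers g) :
    ∃ K : Subgroup G, K.FiniteIndex ∧ Subgroup.zpowers g ≤ K ∧ h ∉ K := by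
  by_cases hg : g.right = 1
  · by_cases hh : h.right = 1
    · have hx : h.left ∉ Subgroup.zpowers g.left := by
        rintro ⟨k, hk⟩
        apply hgh
        refine ⟨k, ?_⟩
        have h1 : g = inl g.left := SemidirectProduct.ext rfl hg
        have h2 : h = inl h.left := SemidirectProduct.ext rfl hh
        change g ^ k = h
        rw [h1, h2, ← map_zpow]
        exact congrArg inl hk
      obtain ⟨P, _, _, q, hq⟩ := free_sep g.left h.left hx
      have hfin := fin_sp P
      refine sep_of_quot (act P) g h ?_
      rintro ⟨k, hk⟩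
      apply hq
      refine ⟨k, ?_⟩
      have h1 : g = inl g.left := SemidirectProduct.ext rfl hg
      have h2 : h = inl h.left := SemidirectProduct.ext rfl hh
      have h3 : act P (inl (g.left ^ k)) = act P (inl h.left) := by
        rw [map_zpow, map_zpow, ← h1, ← h2]
        exact hk
      have h4 := DFunLike.congr_fun h3 (q, 1)
      rw [act_inl, act_inl, Prod.mk.injEq, mul_one, mul_one, map_zpow] at h4
      exact h4.2
    · -- separate by the projection
      obtain ⟨n, hn0, hn⟩ : ∃ n : ℕ, n ≠ 0 ∧ red n h.right ≠ 1 := by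
        refine ⟨(Multiplicative.toAdd h.right).natAbs + 1, by omega, ?_⟩
        rw [Ne, red_eq_one]
        intro hd
        have h1 : Multiplicative.toAdd h.right ≠ 0 := hh
        have h2 := Int.natAbs_dvd_natAbs.2 hd
        have h3 := Nat.le_of_dvd (Int.natAbs_pos.2 h1) h2
        simp only [Int.natAbs_natCast] at h3
        omega
      have : NeZero n := ⟨hn0⟩
      refine sep_of_quot ((red n).comp rt) g h ?_
      have h1 : ((red n).comp rt) g = 1 := by
        rw [MonoidHom.comp_apply, rt_apply, hg, map_one]
      rw [h1, Subgroup.zpowers_one_eq_bot, Subgroup.mem_bot]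
      exact hn
  · have hn : Multiplicative.toAdd g.right ≠ 0 := hg
    by_cases hd : Multiplicative.toAdd g.right ∣ Multiplicative.toAdd h.right
    · obtain ⟨k, hk⟩ := hd
      obtain ⟨u, hu⟩ : ∃ u, u = h * (g ^ k)⁻¹ := ⟨_, rfl⟩
      have hur : u.right = 1 := by
        have : rt u = rt h * (rt g ^ k)⁻¹ := by rw [hu, map_mul, map_inv, map_zpow]
        rw [rt_apply, rt_apply, rt_apply] at this
        rw [this]
        apply Multiplicative.toAdd.injective
        rw [toAdd_mul, toAdd_inv, toAdd_zpow, hk, toAdd_one, smul_eq_mul]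
        ring
      have hul : u.left ≠ 1 := by
        intro h1
        have h2 : u = 1 := SemidirectProduct.ext h1 hur
        rw [h2] at hu
        apply hgh
        exact ⟨k, by
          change g ^ k = h
          rw [eq_comm, mul_inv_eq_one] at hu
          exact hu.symm⟩
      obtain ⟨⟨P, q⟩, hq⟩ := Pool.CS.N_free_rf.free_rf (Fin 3) u.left hul
      have hfin := fin_sp P
      have hu1 : act P u ≠ 1 := by
        intro h1
        apply hq
        have h2 : u = inl u.left := SemidirectProduct.ext rfl hur
        rw [h2] at h1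
        have h3 := DFunLike.congr_fun h1 (q, 1)
        rw [act_inl, Equiv.Perm.one_apply, Prod.mk.injEq, mul_one] at h3
        exact h3.2
      obtain ⟨J, hJ⟩ : ∃ J, J = orderOf (act P g) := ⟨_, rfl⟩
      have hJ0 : J ≠ 0 := by
        rw [hJ]
        exact (orderOf_pos (act P g)).ne'
      have hN0 : (Multiplicative.toAdd g.right).natAbs * J ≠ 0 :=
        mul_ne_zero (Int.natAbs_ne_zero.2 hn) hJ0
      have : NeZero ((Multiplicative.toAdd g.right).natAbs * J) := ⟨hN0⟩
      refine sep_of_quot ((act P).prod
        ((red ((Multiplicative.toAdd g.right).natAbs * J)).comp rt)) g h ?_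
      rintro ⟨m, hm⟩
      have hm' : ((act P).prod
        ((red ((Multiplicative.toAdd g.right).natAbs * J)).comp rt)) (g ^ m) = ((act P).prod
        ((red ((Multiplicative.toAdd g.right).natAbs * J)).comp rt)) h := by
        rw [map_zpow]
        exact hm
      rw [MonoidHom.prod_apply, MonoidHom.prod_apply, Prod.mk.injEq] at hm'
      obtain ⟨m1, m2⟩ := hm'
      have h5 : red ((Multiplicative.toAdd g.right).natAbs * J) (rt (g ^ m * h⁻¹)) = 1 := by
        rw [map_mul, map_mul, map_inv, map_inv]
        rw [MonoidHom.comp_apply, MonoidHom.comp_apply] at m2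
        rw [m2, mul_inv_cancel]
      rw [red_eq_one] at h5
      have h6 : Multiplicative.toAdd (rt (g ^ m * h⁻¹)) =
          Multiplicative.toAdd g.right * (m - k) := by
        rw [map_mul, map_inv, map_zpow, toAdd_mul, toAdd_inv, toAdd_zpow, rt_apply, rt_apply, hk,
          smul_eq_mul]
        ring
      rw [h6, Nat.cast_mul, Int.natCast_natAbs] at h5
      have h7 : (J : ℤ) ∣ m - k := by
        have h8 : |Multiplicative.toAdd g.right| * (J : ℤ) ∣
            |Multiplicative.toAdd g.right| * (m - k) := by
          refine h5.trans ?_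
          exact mul_dvd_mul_right (self_dvd_abs _) _
        exact (mul_dvd_mul_iff_left (abs_ne_zero.2 hn)).1 h8
      apply hu1
      rw [hu, map_mul, map_inv, ← m1, map_zpow, map_zpow, ← zpow_neg, ← zpow_add,
        ← sub_eq_add_neg]
      rw [← orderOf_dvd_iff_zpow_eq_one, ← hJ]
      exact h7
    · have : NeZero (Multiplicative.toAdd g.right).natAbs := ⟨Int.natAbs_ne_zero.2 hn⟩
      refine sep_of_quot ((red (Multiplicative.toAdd g.right).natAbs).comp rt) g h ?_
      have h1 : ((red (Multiplicative.toAdd g.right).natAbs).comp rt) g = 1 := by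
        rw [MonoidHom.comp_apply, rt_apply, red_eq_one, Int.natCast_natAbs]
        exact abs_dvd_self _
      rw [h1, Subgroup.zpowers_one_eq_bot, Subgroup.mem_bot, MonoidHom.comp_apply, rt_apply,
        red_eq_one, Int.natCast_natAbs, abs_dvd]
      exact hd

end Q27.Gersten
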